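import Pool.Agent.H773.CS.Stm

open Finset
open Pool.Agent.H773.CS

namespace Pool.Agent.H660.CS

open Classical in
/-- indicator of a proposition -/
noncomputable def ind (Q : Prop) : ℝ := if Q then 1 else 0

theorem ind_pos {Q : Prop} (h : Q) : ind Q = 1 := by unfold ind; rw [if_pos h]
theorem ind_neg {Q : Prop} (h : ¬ Q) : ind Q = 0 := by unfold ind; rw [if_neg h]
theorem ind_nonneg (Q : Prop) : 0 ≤ ind Q := by
  by_cases h : Q
  · rw [ind_pos h]; norm_num
  · rw [ind_neg h]

theorem card_pow {α : Type} [Fintype α] (n : ℕ) (G : Set α) :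
    (∑ b : Fin (n+1) → α, ind (∀ i, b i ∈ G)) = ((G.ncard : ℝ))^(n+1) := by
  classical
  have h0 : (∑ b : Fin (n+1) → α, ind (∀ i, b i ∈ G))
      = ∑ b : Fin (n+1) → α, if (∀ i, b i ∈ G) then (1:ℝ) else 0 := by
    refine Finset.sum_congr rfl (fun b _ => ?_)
    by_cases h : ∀ i, b i ∈ G
    · rw [ind_pos h, if_pos h]
    · rw [ind_neg h, if_neg h]
  rw [h0, Finset.sum_boole]
  have h1 : (univ.filter (fun b : Fin (n+1) → α => ∀ i, b i ∈ G))
      = Fintype.piFinset (fun _ : Fin (n+1) => univ.filter (fun x => x ∈ G)) := by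
    ext b; simp [Fintype.mem_piFinset]
  rw [h1, Fintype.card_piFinset]
  have h2 : G.ncard = (univ.filter (fun x => x ∈ G)).card := by
    rw [← Set.ncard_coe_finset]; congr 1; ext x; simp
  rw [h2]; simp

open Classical in
theorem bound {α : Type} [Fintype α] (n : ℕ) (G : Set α) (p : (Fin (n+1) → α) → Prop)
    [Fintype {b : Fin (n+1) → α // p b}] :
    (∑ b : {b : Fin (n+1) → α // p b}, ind (∀ i, b.1 i ∈ G))
      ≤ (G.ncard : ℝ)^(n+1) := by
  rw [← card_pow n G]
  have h : (∑ b : {b : Fin (n+1) → α // p b}, ind (∀ i, b.1 i ∈ G))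
      = ∑ b ∈ univ.filter p, ind (∀ i, b i ∈ G) := by
    symm
    exact Finset.sum_subtype (univ.filter p) (p := p) (by intro x; simp) (fun b => ind (∀ i, b i ∈ G))
  rw [h]
  apply Finset.sum_le_sum_of_subset_of_nonneg (Finset.filter_subset _ _)
  intro i _ _; exact ind_nonneg _

open Classical in
theorem t_nval (hpt : S_pt) (hbit : S_bit) (hlb : S_lb) (hinj : S_inj) : S_nval := by
  obtain ⟨n1, hn1⟩ := exists_pow_lt_of_lt_one (show (0:ℝ) < 1/200 by norm_num)
    (show (9/10 : ℝ) < 1 by norm_num)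
  obtain ⟨n2, hn2⟩ := exists_pow_lt_of_lt_one (show (0:ℝ) < 1/200 by norm_num)
    (show (1 - 1/5000 : ℝ) < 1 by norm_num)
  refine ⟨max n1 n2, ?_⟩
  intro n hn
  refine ⟨max 10000 (4 * (10*(n+1))^2), ?_⟩
  intro P q hP hP0
  have hP1 : 10000 ≤ P := le_trans (le_max_left _ _) hP0
  have hP2 : 4 * (10*(n+1))^2 ≤ P := le_trans (le_max_right _ _) hP0
  have hodd : P % 2 = 1 := by
    rcases hP.out.eq_two_or_odd with h | h
    · omega
    · exact h
  have hPpos : (0:ℝ) < P := by exact_mod_cast (show 0 < P by omega)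
  set M : ℝ := (64 * (P:ℝ)^4)^(n+1) with hM
  have hMpos : 0 < M := by positivity
  -- cardinality of all tuples
  have hcardBlk : (Fintype.card (Blk P) : ℝ) = 64 * (P:ℝ)^4 := by
    simp only [Blk, Fintype.card_prod, ZMod.card, Fintype.card_bool]
    push_cast; ring
  have hcardAll : (Fintype.card (Fin (n+1) → Blk P) : ℝ) = M := by
    rw [Fintype.card_fun, Fintype.card_fin]; push_cast; rw [hcardBlk]
  set N : ℝ := (Fintype.card {b : Fin (n+1) → Blk P // Function.Injective (tvar b)} : ℝ) with hN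
  have hNI := hinj P n hodd (by omega)
  have hsplit : N + (Set.ncard {b : Fin (n+1) → Blk P | ¬ Function.Injective (tvar b)} : ℝ) = M := by
    rw [← hcardAll, hN]
    have h1 : Fintype.card {b : Fin (n+1) → Blk P // Function.Injective (tvar b)}
        + Fintype.card {b : Fin (n+1) → Blk P // ¬ Function.Injective (tvar b)}
        = Fintype.card (Fin (n+1) → Blk P) := by
      rw [Fintype.card_subtype_compl]
      have := Fintype.card_subtype_le (fun b : Fin (n+1) → Blk P => Function.Injective (tvar b))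
      omega
    have h2 : Set.ncard {b : Fin (n+1) → Blk P | ¬ Function.Injective (tvar b)}
        = Fintype.card {b : Fin (n+1) → Blk P // ¬ Function.Injective (tvar b)} := by
      rw [← Nat.card_coe_set_eq, Nat.card_eq_fintype_card]; rfl
    rw [h2]; exact_mod_cast h1
  have hNIle : (Set.ncard {b : Fin (n+1) → Blk P | ¬ Function.Injective (tvar b)} : ℝ) ≤ M / 2 := by
    have h3 : (2 * (10 * ((n:ℝ)+1))^2) ≤ P / 2 := by
      have : ((4 * (10*(n+1))^2 : ℕ) : ℝ) ≤ P := by exact_mod_cast hP2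
      push_cast at this
      linarith
    have h4 : (Set.ncard {b : Fin (n+1) → Blk P | ¬ Function.Injective (tvar b)} : ℝ) * P
        ≤ (P / 2) * M := by
      refine le_trans hNI ?_
      exact mul_le_mul_of_nonneg_right h3 hMpos.le
    have h5 : (Set.ncard {b : Fin (n+1) → Blk P | ¬ Function.Injective (tvar b)} : ℝ) * P
        ≤ (M / 2) * P := by nlinarith
    exact le_of_mul_le_mul_right h5 hPpos
  have hNge : M / 2 ≤ N := by linarith
  have hNpos : 0 < N := by linarith
  have hJJ : (Fintype.card (JJ P n) : ℝ) = 3 * N := by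
    rw [hN]; simp only [JJ, Fintype.card_prod, Fintype.card_fin]; push_cast; ring
  refine ⟨?_, ?_⟩
  · have : (0:ℝ) < Fintype.card (JJ P n) := by rw [hJJ]; linarith
    exact_mod_cast this
  intro τ
  rw [hJJ]
  -- sets of good blocks
  set GB : Set (Blk P) := {b | BitOK (dig b) (fun r => τ (bvar b r))} with hGB
  set GLa : Set (Blk P) := {b | LabOK (fun r => τ (bvar b r))} with hGLa
  have hbB := hbit P q hodd τ
  have hbL := hlb P q hP1 τ
  have hpowB : ((GB.ncard : ℝ))^(n+1) ≤ 1/200 * M := by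
    have h1 : ((GB.ncard : ℝ))^(n+1) ≤ (9/10 * (64 * (P:ℝ)^4))^(n+1) :=
      pow_le_pow_left₀ (by positivity) hbB _
    rw [mul_pow] at h1
    refine le_trans h1 (mul_le_mul_of_nonneg_right ?_ hMpos.le)
    have h2 : (9/10:ℝ)^(n+1) ≤ (9/10:ℝ)^n1 :=
      pow_le_pow_of_le_one (by norm_num) (by norm_num) (by have := le_max_left n1 n2; omega)
    linarith
  have hpowL : ((GLa.ncard : ℝ))^(n+1) ≤ 1/200 * M := by
    have h1 : ((GLa.ncard : ℝ))^(n+1) ≤ ((1 - 1/5000) * (64 * (P:ℝ)^4))^(n+1) :=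
      pow_le_pow_left₀ (by positivity) hbL _
    rw [mul_pow] at h1
    refine le_trans h1 (mul_le_mul_of_nonneg_right ?_ hMpos.le)
    have h2 : (1 - 1/5000:ℝ)^(n+1) ≤ (1 - 1/5000:ℝ)^n2 :=
      pow_le_pow_of_le_one (by norm_num) (by norm_num) (by have := le_max_right n1 n2; omega)
    linarith
  -- pointwise bound
  have hpoint : ∀ b : {b : Fin (n+1) → Blk P // Function.Injective (tvar b)},
      (∑ i : Fin 3, if fJ q ((b, i) : JJ P n) (fun k => τ (eJ ((b, i) : JJ P n) k)) = true
        then (1:ℝ) else 0) ≤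
      1 + 2 * ind (∀ i, b.1 i ∈ GB)
        + 2 * ind (∀ i, b.1 i ∈ GLa) := by
    intro b
    have hp := hpt n q (fun i => dig (b.1 i)) (fun k => τ (tvar b.1 k))
    have hps : ∀ (i : Fin (n+1)) (r : Fin 10), tvar b.1 (ps i r) = bvar (b.1 i) r := by
      intro i r; simp [tvar, ps]
    simp only [hps] at hp
    rw [Fin.sum_univ_three]
    have e0 : fJ q ((b, 0) : JJ P n) = fF n q false (fun i => dig (b.1 i)) := by simp [fJ]
    have e1 : fJ q ((b, 1) : JJ P n) = fF n q true (fun i => dig (b.1 i)) := by simp [fJ]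
    have e2 : fJ q ((b, 2) : JJ P n) = fU n q := by simp [fJ]
    rw [e0, e1, e2]
    have ee : ∀ (i : Fin 3), (fun k => τ (eJ ((b, i) : JJ P n) k)) = (fun k => τ (tvar b.1 k)) := by
      intro i; rfl
    rw [ee, ee, ee]
    refine le_trans hp ?_
    have hB : (if ∀ i, BitOK (dig (b.1 i)) (fun r => τ (bvar (b.1 i) r)) then (2:ℝ) else 0)
        = 2 * ind (∀ i, b.1 i ∈ GB) := by
      by_cases h : ∀ i, b.1 i ∈ GB
      · rw [ind_pos h, if_pos (by exact h)]; norm_num
      · rw [ind_neg h, if_neg (by exact h)]; norm_num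
    have hL : (if ∀ i, LabOK (fun r => τ (bvar (b.1 i) r)) then (2:ℝ) else 0)
        = 2 * ind (∀ i, b.1 i ∈ GLa) := by
      by_cases h : ∀ i, b.1 i ∈ GLa
      · rw [ind_pos h, if_pos (by exact h)]; norm_num
      · rw [ind_neg h, if_neg (by exact h)]; norm_num
    rw [hB, hL]
  calc (∑ j : JJ P n, if fJ q j (fun i => τ (eJ j i)) = true then (1:ℝ) else 0)
      = ∑ b : {b : Fin (n+1) → Blk P // Function.Injective (tvar b)}, ∑ i : Fin 3,
        if fJ q ((b, i) : JJ P n) (fun k => τ (eJ ((b, i) : JJ P n) k)) = true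
        then (1:ℝ) else 0 := by
        rw [Fintype.sum_prod_type]
    _ ≤ ∑ b : {b : Fin (n+1) → Blk P // Function.Injective (tvar b)},
        (1 + 2 * ind (∀ i, b.1 i ∈ GB)
        + 2 * ind (∀ i, b.1 i ∈ GLa)) :=
        Finset.sum_le_sum (fun b _ => hpoint b)
    _ = N + 2 * (∑ b : {b : Fin (n+1) → Blk P // Function.Injective (tvar b)},
          ind (∀ i, b.1 i ∈ GB))
        + 2 * (∑ b : {b : Fin (n+1) → Blk P // Function.Injective (tvar b)},
          ind (∀ i, b.1 i ∈ GLa)) := by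
        rw [Finset.sum_add_distrib, Finset.sum_add_distrib, Finset.mul_sum, Finset.mul_sum]
        simp [hN]
    _ ≤ N + 2 * (1/200 * M) + 2 * (1/200 * M) := by
        exact add_le_add (add_le_add le_rfl
          (mul_le_mul_of_nonneg_left ((bound n GB _).trans hpowB) (by norm_num)))
          (mul_le_mul_of_nonneg_left ((bound n GLa _).trans hpowL) (by norm_num))
    _ ≤ 7/20 * (3 * N) := by linarith

end Pool.Agent.H660.CS
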